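import Pool.Agent.H937.QS.Stm

set_option autoImplicit false

/-!
QS-POL (helper215 for helper937): the fifteen alternants are combinations of the alternants `fd`.
-/

open scoped Matrix TensorProduct
open Pool.Agent.H937.QS
universe u
namespace Pool.Agent.H215.QS.POL

section ring

variable {S : Type u} [CommRing S]

/-- the explicit expansion of the determinant -/
def dd (x y z : Fin 4 → S) : S :=
  (x 1 * y 2 * z 3 - x 1 * y 3 * z 2 - x 2 * y 1 * z 3 + x 2 * y 3 * z 1 + x 3 * y 1 * z 2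
    - x 3 * y 2 * z 1)
  - (x 0 * y 2 * z 3 - x 0 * y 3 * z 2 - x 2 * y 0 * z 3 + x 2 * y 3 * z 0 + x 3 * y 0 * z 2
    - x 3 * y 2 * z 0)
  + (x 0 * y 1 * z 3 - x 0 * y 3 * z 1 - x 1 * y 0 * z 3 + x 1 * y 3 * z 0 + x 3 * y 0 * z 1
    - x 3 * y 1 * z 0)
  - (x 0 * y 1 * z 2 - x 0 * y 2 * z 1 - x 1 * y 0 * z 2 + x 1 * y 2 * z 0 + x 2 * y 0 * z 1
    - x 2 * y 1 * z 0)

lemma det_cols (x y z : Fin 4 → S) : (cols x y z).det = dd x y z := by
  unfold dd cols
  simp [Matrix.det_succ_row_zero, Fin.sum_univ_succ, Fin.succAbove]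
  ring

lemma fd_eq (x y : Fin 4 → S) : fd x y = dd x y (x * y) := det_cols _ _ _

lemma dsc1 (x y z : Fin 4 → S) (i j : Fin 3) :
    dsc (cols x y z) i j 1 = dd (![x, y, z] i * ![x, y, z] j) y z := by
  rw [← det_cols]
  unfold dsc
  congr 1
  ext q l
  fin_cases l <;> fin_cases i <;> fin_cases j <;> simp [cols]

lemma dsc2 (x y z : Fin 4 → S) (i j : Fin 3) :
    dsc (cols x y z) i j 2 = dd x (![x, y, z] i * ![x, y, z] j) z := by
  rw [← det_cols]
  unfold dsc
  congr 1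
  ext q l
  fin_cases l <;> fin_cases i <;> fin_cases j <;> simp [cols]

lemma dsc3 (x y z : Fin 4 → S) (i j : Fin 3) :
    dsc (cols x y z) i j 3 = dd x y (![x, y, z] i * ![x, y, z] j) := by
  rw [← det_cols]
  unfold dsc
  congr 1
  ext q l
  fin_cases l <;> fin_cases i <;> fin_cases j <;> simp [cols]

/-- `h (x, y) = det (1, x, y, x ^ 2)` -/
def hh (x y : Fin 4 → S) : S := dd x y (x * x)

/-- `P (x; y, z)` -/
def PP (x y z : Fin 4 → S) : S := dd x y (x * z) + dd x z (x * y)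

/-- `D (x, y; z)` -/
def DD (x y z : Fin 4 → S) : S := dd y z (x * x) + 2 * dd x z (x * y)

lemma hh_eq (u v : Fin 4 → S) : hh u v = fd u (u + v) - fd u v := by
  rw [fd_eq, fd_eq]
  simp only [hh, dd, Pi.mul_apply, Pi.add_apply]
  ring

lemma PP_eq (x y z : Fin 4 → S) : PP x y z = fd x (y + z) - fd x y - fd x z := by
  rw [fd_eq, fd_eq, fd_eq]
  simp only [PP, dd, Pi.mul_apply, Pi.add_apply]
  ring

lemma hh_add (c : S) (x y z : Fin 4 → S) :
    hh (x + c • y) z = hh x z + c * DD x y z + c ^ 2 * DD y x z + c ^ 3 * hh y z := by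
  simp only [hh, DD, dd, Pi.mul_apply, Pi.add_apply, Pi.smul_apply, smul_eq_mul]
  ring

end ring

section main

variable {k L : Type u} [Field k] [Field L] [Algebra k L]

/-- the hypothesis of the task -/
def Hy (a : k) (x y z : Fin 4 → L) (Q : Submodule k L) : Prop :=
  ∀ c c' : Fin 3 → k, (∀ i, c i = 0 ∨ c i = 1 ∨ c i = a) → (∀ i, c' i = 0 ∨ c' i = 1 ∨ c' i = a) →
    fd (c 0 • x + c 1 • y + c 2 • z) (c' 0 • x + c' 1 • y + c' 2 • z) ∈ Q

lemma Hy.s01 {a : k} {x y z : Fin 4 → L} {Q : Submodule k L} (h : Hy a x y z Q) :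
    Hy a y x z Q := by
  intro c c' hc hc'
  have := h ![c 1, c 0, c 2] ![c' 1, c' 0, c' 2]
    (by intro i; fin_cases i; exacts [hc 1, hc 0, hc 2])
    (by intro i; fin_cases i; exacts [hc' 1, hc' 0, hc' 2])
  simp only [Matrix.cons_val] at this
  rw [add_comm (c 0 • y), add_comm (c' 0 • y)]
  exact this

lemma Hy.s12 {a : k} {x y z : Fin 4 → L} {Q : Submodule k L} (h : Hy a x y z Q) :
    Hy a x z y Q := by
  intro c c' hc hc'
  have := h ![c 0, c 2, c 1] ![c' 0, c' 2, c' 1]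
    (by intro i; fin_cases i; exacts [hc 0, hc 2, hc 1])
    (by intro i; fin_cases i; exacts [hc' 0, hc' 2, hc' 1])
  simp only [Matrix.cons_val] at this
  rw [add_right_comm (c 0 • x), add_right_comm (c' 0 • x)]
  exact this

lemma Hy.use {a : k} {x y z : Fin 4 → L} {Q : Submodule k L} (h : Hy a x y z Q)
    (c0 c1 c2 d0 d1 d2 : k) (h0 : c0 = 0 ∨ c0 = 1 ∨ c0 = a) (h1 : c1 = 0 ∨ c1 = 1 ∨ c1 = a)
    (h2 : c2 = 0 ∨ c2 = 1 ∨ c2 = a) (g0 : d0 = 0 ∨ d0 = 1 ∨ d0 = a)
    (g1 : d1 = 0 ∨ d1 = 1 ∨ d1 = a) (g2 : d2 = 0 ∨ d2 = 1 ∨ d2 = a) {u v : Fin 4 → L}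
    (hu : u = c0 • x + c1 • y + c2 • z) (hv : v = d0 • x + d1 • y + d2 • z) : fd u v ∈ Q := by
  have := h ![c0, c1, c2] ![d0, d1, d2]
    (by intro i; fin_cases i; exacts [h0, h1, h2])
    (by intro i; fin_cases i; exacts [g0, g1, g2])
  simp only [Matrix.cons_val] at this
  rw [hu, hv]
  exact this

lemma Hy.f {a : k} {x y z : Fin 4 → L} {Q : Submodule k L} (h : Hy a x y z Q) : fd x y ∈ Q :=
  h.use 1 0 0 0 1 0 (by simp) (by simp) (by simp) (by simp) (by simp) (by simp) (by simp) (by simp)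

lemma Hy.P {a : k} {x y z : Fin 4 → L} {Q : Submodule k L} (h : Hy a x y z Q) :
    PP x y z ∈ Q := by
  rw [PP_eq]
  have h1 : fd x (y + z) ∈ Q :=
    h.use 1 0 0 0 1 1 (by simp) (by simp) (by simp) (by simp) (by simp) (by simp) (by simp)
      (by simp)
  exact Q.sub_mem (Q.sub_mem h1 h.f) h.s12.f

lemma Hy.h {a : k} {x y z : Fin 4 → L} {Q : Submodule k L} (h : Hy a x y z Q) : hh x y ∈ Q := by
  rw [hh_eq]
  have h1 : fd x (x + y) ∈ Q :=
    h.use 1 0 0 1 1 0 (by simp) (by simp) (by simp) (by simp) (by simp) (by simp) (by simp)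
      (by simp)
  exact Q.sub_mem h1 h.f

/-- `h (x + c y, z) ∈ Q` for `c ∈ {0, 1, a}` -/
lemma Hy.hc {a : k} {x y z : Fin 4 → L} {Q : Submodule k L} (h : Hy a x y z Q) (c : k)
    (hc : c = 0 ∨ c = 1 ∨ c = a) : hh (x + c • y) z ∈ Q := by
  rw [hh_eq]
  have h1 : fd (x + c • y) (x + c • y + z) ∈ Q :=
    h.use 1 c 0 1 c 1 (by simp) hc (by simp) (by simp) hc (by simp) (by simp)
      (by simp)
  have h2 : fd (x + c • y) z ∈ Q :=
    h.use 1 c 0 0 0 1 (by simp) hc (by simp) (by simp) (by simp) (by simp) (by simp)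
      (by simp)
  exact Q.sub_mem h1 h2

lemma Hy.D {a : k} (ha : a ^ 2 ≠ a) {x y z : Fin 4 → L} {Q : Submodule k L} (h : Hy a x y z Q) :
    DD x y z ∈ Q := by
  have e : ∀ c : k, hh (x + c • y) z =
      hh x z + c • DD x y z + (c ^ 2) • DD y x z + (c ^ 3) • hh y z := by
    intro c
    have h1 : x + c • y = x + (algebraMap k L c) • y := by
      ext q
      simp [Algebra.smul_def]
    rw [h1, hh_add]
    simp only [Algebra.smul_def, map_pow]
  have ea := e a
  have e1 := e 1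
  have h1 : hh (x + a • y) z ∈ Q := h.hc a (by simp)
  have h2 : hh (x + (1 : k) • y) z ∈ Q := h.hc 1 (by simp)
  have h3 : hh x z ∈ Q := h.s12.h
  have h4 : hh y z ∈ Q := h.s01.s12.h
  have key : (a - a ^ 2) • DD x y z = (hh (x + a • y) z - hh x z - (a ^ 3) • hh y z)
      - (a ^ 2) • (hh (x + (1 : k) • y) z - hh x z - hh y z) := by
    rw [ea, e1]
    simp only [Algebra.smul_def, map_pow, map_sub, map_one]
    ring
  have hm : (a - a ^ 2) • DD x y z ∈ Q := by
    rw [key]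
    refine Q.sub_mem (Q.sub_mem (Q.sub_mem h1 h3) (Q.smul_mem _ h4)) (Q.smul_mem _ ?_)
    exact Q.sub_mem (Q.sub_mem h2 h3) h4
  have hne : a - a ^ 2 ≠ 0 := fun h0 => ha (sub_eq_zero.1 h0).symm
  have := Q.smul_mem (a - a ^ 2)⁻¹ hm
  rwa [smul_smul, inv_mul_cancel₀ hne, one_smul] at this

end main

theorem t_POL : S_POL.{u} := by
  intro k L _ _ _ a ha x y z Q hQ X
  have H : Hy a x y z Q := hQ
  -- the six permutations
  have Hxzy := H.s12
  have Hyxz := H.s01
  have Hyzx := H.s01.s12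
  have Hzxy := H.s12.s01
  have Hzyx := H.s12.s01.s12
  fin_cases X
  · -- 0
    have e : Lam (cols x y z) 0 = - hh x y := by
      simp only [Lam, pL, dsc1, dsc2, dsc3, Matrix.cons_val, hh]
    exact e ▸ Q.neg_mem H.h
  · have e : Lam (cols x y z) 1 = - hh x z := by
      simp only [Lam, pL, dsc1, dsc2, dsc3, Matrix.cons_val, hh, dd, Pi.mul_apply]
      ring
    exact e ▸ Q.neg_mem Hxzy.h
  · have e : Lam (cols x y z) 2 = - fd x y := by
      simp only [Lam, pL, dsc1, dsc2, dsc3, Matrix.cons_val, fd_eq, dd, Pi.mul_apply]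
    exact e ▸ Q.neg_mem H.f
  · have e : Lam (cols x y z) 3 = - PP x y z := by
      simp only [Lam, pL, dsc1, dsc2, dsc3, Matrix.cons_val, PP, dd, Pi.mul_apply]
      ring
    exact e ▸ Q.neg_mem H.P
  · have e : Lam (cols x y z) 4 = - fd x z := by
      simp only [Lam, pL, dsc1, dsc2, dsc3, Matrix.cons_val, fd_eq, dd, Pi.mul_apply]
      ring
    exact e ▸ Q.neg_mem Hxzy.f
  · have e : Lam (cols x y z) 5 = PP x y z - DD x y z := by
      simp only [Lam, pL, dsc1, dsc2, dsc3, Matrix.cons_val, PP, DD, dd, Pi.mul_apply]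
      ring
    exact e ▸ Q.sub_mem H.P (H.D ha)
  · have e : Lam (cols x y z) 6 = hh y x := by
      simp only [Lam, pL, dsc1, dsc2, dsc3, Matrix.cons_val, hh, dd, Pi.mul_apply]
      ring
    exact e ▸ Hyxz.h
  · have e : Lam (cols x y z) 7 = PP y x z - DD y x z := by
      simp only [Lam, pL, dsc1, dsc2, dsc3, Matrix.cons_val, PP, DD, dd, Pi.mul_apply]
      ring
    exact e ▸ Q.sub_mem Hyxz.P (Hyxz.D ha)
  · have e : Lam (cols x y z) 8 = PP z x y := by
      simp only [Lam, pL, dsc1, dsc2, dsc3, Matrix.cons_val, PP, dd, Pi.mul_apply]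
      ring
    exact e ▸ Hzxy.P
  · have e : Lam (cols x y z) 9 = PP y x z := by
      simp only [Lam, pL, dsc1, dsc2, dsc3, Matrix.cons_val, PP, dd, Pi.mul_apply]
      ring
    exact e ▸ Hyxz.P
  · have e : Lam (cols x y z) 10 = PP z x y - DD z x y := by
      simp only [Lam, pL, dsc1, dsc2, dsc3, Matrix.cons_val, PP, DD, dd, Pi.mul_apply]
      ring
    exact e ▸ Q.sub_mem Hzxy.P (Hzxy.D ha)
  · have e : Lam (cols x y z) 11 = hh z x := by
      simp only [Lam, pL, dsc1, dsc2, dsc3, Matrix.cons_val, hh, dd, Pi.mul_apply]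
      ring
    exact e ▸ Hzxy.h
  · have e : Lam (cols x y z) 12 = - hh y z := by
      simp only [Lam, pL, dsc1, dsc2, dsc3, Matrix.cons_val, hh, dd, Pi.mul_apply]
      ring
    exact e ▸ Q.neg_mem Hyzx.h
  · have e : Lam (cols x y z) 13 = - fd y z := by
      simp only [Lam, pL, dsc1, dsc2, dsc3, Matrix.cons_val, fd_eq, dd, Pi.mul_apply]
      ring
    exact e ▸ Q.neg_mem Hyzx.f
  · have e : Lam (cols x y z) 14 = hh z y := by
      simp only [Lam, pL, dsc1, dsc2, dsc3, Matrix.cons_val, hh, dd, Pi.mul_apply]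
      ring
    exact e ▸ Hzyx.h

end Pool.Agent.H215.QS.POL
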